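import Pool.Agent.W46.HD.Stm

/-!
# HD-CFG: existence of the configuration
-/

set_option autoImplicit false

open Finset
open scoped Classical

namespace Pool.Agent.W597.HD
open Pool.Agent.W904.AK Pool.Agent.W46.HD

set_option linter.unusedSectionVars false

section tools

variable {Ω Ω' Ω₁ Ω₂ Θ₁ Θ₂ : Type} [Fintype Ω] [Fintype Ω'] [Fintype Ω₁] [Fintype Ω₂]
  [Fintype Θ₁] [Fintype Θ₂] {α β γ : Type}

theorem im_im (p : Ω → ℝ) (φ : Ω → Ω') (u : Ω' → α) :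
    im p (fun x => u (φ x)) = im (im p φ) u := by
  funext a
  exact (im_comp p φ u a).symm

theorem im_id (p : Ω → ℝ) : im p (fun x => x) = p := by
  funext a
  rw [im_eq_sum, Finset.sum_ite_eq']
  simp

theorem H_ae {p : Ω → ℝ} (hp : IsLaw p) {f g : Ω → α} (h : ∀ x, p x ≠ 0 → f x = g x) :
    H p f = H p g := by
  refine H_congr hp ?_ ?_
  · intro x y hx hy hxy
    rw [← h x hx, ← h y hy, hxy]
  · intro x y hx hy hxy
    rw [h x hx, h y hy, hxy]

/-- images of gluings -/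
theorem im_glue (p : Ω₁ → ℝ) (q : Ω₂ → ℝ) (φ : Ω₁ → Θ₁) (ψ : Ω₂ → Θ₂) (f' : Θ₁ → γ)
    (g' : Θ₂ → γ) :
    im (glue p q (fun x => f' (φ x)) (fun y => g' (ψ y))) (fun z => (φ z.1, ψ z.2)) =
      glue (im p φ) (im q ψ) f' g' := by
  funext z
  obtain ⟨x', y'⟩ := z
  rw [im_eq_sum, Fintype.sum_prod_type]
  have h1 : ∀ x y, (@ite ℝ ((φ x, ψ y) = (x', y')) (Classical.propDecidable _)
      (glue p q (fun x => f' (φ x)) (fun y => g' (ψ y)) (x, y)) 0) =
      (if f' x' = g' y' then (1 / im (im p φ) f' (f' x')) else 0) *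
        ((if φ x = x' then p x else 0) * (if ψ y = y' then q y else 0)) := by
    intro x y
    by_cases hx : φ x = x'
    · by_cases hy : ψ y = y'
      · rw [if_pos (by rw [hx, hy]), if_pos hx, if_pos hy]
        unfold glue
        simp only
        rw [hx, hy, im_im p φ f']
        split_ifs
        · ring
        · ring
      · rw [if_neg (fun h => hy (congrArg Prod.snd h)), if_neg hy]
        ring
    · rw [if_neg (fun h => hx (congrArg Prod.fst h)), if_neg hx]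
      ring
  have h2 := Finset.sum_congr (rfl : (Finset.univ : Finset Ω₁) = Finset.univ) fun x _ =>
    Finset.sum_congr (rfl : (Finset.univ : Finset Ω₂) = Finset.univ) fun y _ => h1 x y
  refine h2.trans ?_
  simp only [← Finset.mul_sum, ← Finset.sum_mul]
  unfold glue
  rw [im_eq_sum p φ x', im_eq_sum q ψ y']
  split_ifs
  · ring
  · ring

end tools

section main

variable {Ω : Type} [Fintype Ω] {d n : ℕ}

/-- two heights on a line -/
noncomputable def r2 (p : Ω × Fin n → ℝ) : (Ω × Fin n) × (Ω × Fin n) → ℝ :=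
  glue p p Prod.fst Prod.fst

/-- three heights on a line -/
noncomputable def r3 (p : Ω × Fin n → ℝ) : ((Ω × Fin n) × (Ω × Fin n)) × (Ω × Fin n) → ℝ :=
  glue (r2 p) p (fun z => z.1.1) Prod.fst

variable {p : Ω × Fin n → ℝ}

theorem r2_law (hp : IsLaw p) : IsLaw (r2 p) := glue_law hp hp fun _ => rfl

theorem r2_fst (hp : IsLaw p) : im (r2 p) Prod.fst = p := glue_fst hp fun _ => rfl

theorem r2_snd (hp : IsLaw p) : im (r2 p) Prod.snd = p := glue_snd hp fun _ => rfl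

theorem r2_swap (p : Ω × Fin n → ℝ) : im (r2 p) (fun z => (z.2, z.1)) = r2 p := by
  funext y
  rw [im_eq_sum]
  have h : ∀ x : (Ω × Fin n) × (Ω × Fin n),
      (@ite ℝ ((x.2, x.1) = y) (Classical.propDecidable _) (r2 p x) 0) =
      @ite ℝ (x = (y.2, y.1)) (Classical.propDecidable _) (r2 p (y.2, y.1)) 0 := by
    intro x
    by_cases hx : x = (y.2, y.1)
    · rw [if_pos hx, if_pos (by rw [hx]), hx]
    · rw [if_neg hx, if_neg]
      rintro h
      apply hx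
      rw [← h]
  refine (Finset.sum_congr rfl fun x _ => h x).trans ?_
  refine ((Finset.sum_eq_single_of_mem (y.2, y.1) (Finset.mem_univ _)
    fun b _ hb => if_neg hb).trans (if_pos rfl)).trans ?_
  unfold r2 glue
  by_cases h2 : y.2.1 = y.1.1
  · rw [if_pos h2, if_pos h2.symm, h2]
    ring
  · rw [if_neg h2, if_neg (Ne.symm h2)]

theorem r3_ok (hp : IsLaw p) (c : Ω) : im (r2 p) (fun z => z.1.1) c = im p Prod.fst c := by
  rw [im_im (r2 p) Prod.fst Prod.fst, r2_fst hp]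

theorem r3_ok' (hp : IsLaw p) (c : Ω) : im (r2 p) (fun z => z.2.1) c = im p Prod.fst c := by
  rw [im_im (r2 p) Prod.snd Prod.fst, r2_snd hp]

theorem r3_law (hp : IsLaw p) : IsLaw (r3 p) := glue_law (r2_law hp) hp (r3_ok hp)

theorem r3_12 (hp : IsLaw p) : im (r3 p) Prod.fst = r2 p := glue_fst (r2_law hp) (r3_ok hp)

theorem r3_3 (hp : IsLaw p) : im (r3 p) Prod.snd = p := glue_snd hp (r3_ok hp)

theorem r3_1 (hp : IsLaw p) : im (r3 p) (fun z => z.1.1) = p := by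
  rw [im_im (r3 p) Prod.fst Prod.fst, r3_12 hp, r2_fst hp]

theorem r3_2 (hp : IsLaw p) : im (r3 p) (fun z => z.1.2) = p := by
  rw [im_im (r3 p) Prod.fst Prod.snd, r3_12 hp, r2_snd hp]

theorem r3_13 (hp : IsLaw p) : im (r3 p) (fun z => (z.1.1, z.2)) = r2 p := by
  have h := im_glue (r2 p) p Prod.fst (fun x => x) (Prod.fst : Ω × Fin n → Ω)
    (Prod.fst : Ω × Fin n → Ω)
  rw [r2_fst hp, im_id] at h
  exact h

theorem r3_alt (hp : IsLaw p) : r3 p = glue (r2 p) p (fun z => z.2.1) Prod.fst := by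
  funext z
  by_cases h0 : r2 p z.1 = 0
  · unfold r3 glue
    rw [h0]
    simp
  · have h1 : z.1.1.1 = z.1.2.1 := (glue_supp h0).1
    unfold r3 glue
    beta_reduce
    rw [r3_ok hp, r3_ok' hp, h1]

theorem r3_23 (hp : IsLaw p) : im (r3 p) (fun z => (z.1.2, z.2)) = r2 p := by
  have h := im_glue (r2 p) p Prod.snd (fun x => x) (Prod.fst : Ω × Fin n → Ω)
    (Prod.fst : Ω × Fin n → Ω)
  rw [r2_snd hp, im_id] at h
  rw [r3_alt hp]
  exact h

theorem r3_21 (hp : IsLaw p) : im (r3 p) (fun z => (z.1.2, z.1.1)) = r2 p := by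
  rw [im_im (r3 p) Prod.fst (fun z => (z.2, z.1)), r3_12 hp, r2_swap]

theorem r3_supp {z : ((Ω × Fin n) × (Ω × Fin n)) × (Ω × Fin n)} (hz : r3 p z ≠ 0) :
    z.1.1.1 = z.1.2.1 ∧ z.1.1.1 = z.2.1 := by
  obtain ⟨h1, h2, -⟩ := glue_supp hz
  exact ⟨(glue_supp h2).1, h1⟩

theorem H_r2 (hp : IsLaw p) : H (r2 p) (fun z => z) = 2 * H p id - H p Prod.fst := by
  have h := H_glue (u := fun x : Ω × Fin n => x) (v := fun x : Ω × Fin n => x) hp hp
    (f := Prod.fst) (g := Prod.fst) (fun _ => rfl) (Det.comp p (fun x => x) Prod.fst)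
    (Det.comp p (fun x => x) Prod.fst)
  have e : H p (fun x => x) = H p id := rfl
  rw [e] at h
  unfold r2
  rw [show (fun z : (Ω × Fin n) × (Ω × Fin n) => z) = fun z => (z.1, z.2) from rfl, h]
  ring

theorem H_r3 (hp : IsLaw p) : H (r3 p) (fun z => z) = 3 * H p id - 2 * H p Prod.fst := by
  have h := H_glue (u := fun x : (Ω × Fin n) × (Ω × Fin n) => x) (v := fun x : Ω × Fin n => x)
    (r2_law hp) hp (f := fun z => z.1.1) (g := Prod.fst) (r3_ok hp)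
    (Det.comp (r2 p) (fun x => x) fun z => z.1.1) (Det.comp p (fun x => x) Prod.fst)
  have e : H p (fun x => x) = H p id := rfl
  have e2 : H (r2 p) (fun z => z.1.1) = H p Prod.fst := H_map (r2_fst hp) Prod.fst
  rw [e, H_r2 hp, e2] at h
  unfold r3
  rw [show (fun z : ((Ω × Fin n) × (Ω × Fin n)) × (Ω × Fin n) => z) = fun z => (z.1, z.2) from rfl,
    h]
  ring

variable (A D : Ω → Fin d → ℝ)

/-- height and cell -/
noncomputable def ce (b : Ω × Fin n) : Fin n × (Fin d → ℤ) := (b.2, cell A D b.2 b.1)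

/-- the lines `l1`, `l2` -/
noncomputable def qA (p : Ω × Fin n → ℝ) :
    (((Ω × Fin n) × (Ω × Fin n)) × (Ω × Fin n)) × (((Ω × Fin n) × (Ω × Fin n)) × (Ω × Fin n)) →
      ℝ := glue (r3 p) (r3 p) (fun z => ce A D z.1.2) (fun z => ce A D z.1.1)

/-- the configuration -/
noncomputable def qq (p : Ω × Fin n → ℝ) :
    ((((Ω × Fin n) × (Ω × Fin n)) × (Ω × Fin n)) × (((Ω × Fin n) × (Ω × Fin n)) × (Ω × Fin n))) ×
      ((Ω × Fin n) × (Ω × Fin n)) → ℝ :=
  glue (qA A D p) (r2 p) (fun z => ce A D z.1.1.1) (fun z => ce A D z.1)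

variable {A D}

theorem qA_ok (hp : IsLaw p) (c : Fin n × (Fin d → ℤ)) :
    im (r3 p) (fun z => ce A D z.1.2) c = im (r3 p) (fun z => ce A D z.1.1) c := by
  rw [im_im (r3 p) (fun z => z.1.2) (ce A D), im_im (r3 p) (fun z => z.1.1) (ce A D), r3_2 hp,
    r3_1 hp]

theorem qA_law (hp : IsLaw p) : IsLaw (qA A D p) := glue_law (r3_law hp) (r3_law hp) (qA_ok hp)

theorem qA_fst (hp : IsLaw p) : im (qA A D p) Prod.fst = r3 p := glue_fst (r3_law hp) (qA_ok hp)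

theorem qA_snd (hp : IsLaw p) : im (qA A D p) Prod.snd = r3 p := glue_snd (r3_law hp) (qA_ok hp)

theorem qq_ok (hp : IsLaw p) (c : Fin n × (Fin d → ℤ)) :
    im (qA A D p) (fun z => ce A D z.1.1.1) c = im (r2 p) (fun z => ce A D z.1) c := by
  rw [im_im (qA A D p) Prod.fst (fun z => ce A D z.1.1), qA_fst hp,
    im_im (r3 p) (fun z => z.1.1) (ce A D), r3_1 hp, im_im (r2 p) Prod.fst (ce A D), r2_fst hp]

theorem qq_law (hp : IsLaw p) : IsLaw (qq A D p) := glue_law (qA_law hp) (r2_law hp) (qq_ok hp)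

theorem qq_fst (hp : IsLaw p) : im (qq A D p) Prod.fst = qA A D p :=
  glue_fst (qA_law hp) (qq_ok hp)

theorem qq_snd (hp : IsLaw p) : im (qq A D p) Prod.snd = r2 p := glue_snd (r2_law hp) (qq_ok hp)

theorem qq_1 (hp : IsLaw p) : im (qq A D p) (fun z => z.1.1) = r3 p := by
  rw [im_im (qq A D p) Prod.fst Prod.fst, qq_fst hp, qA_fst hp]

theorem qq_2 (hp : IsLaw p) : im (qq A D p) (fun z => z.1.2) = r3 p := by
  rw [im_im (qq A D p) Prod.fst Prod.snd, qq_fst hp, qA_snd hp]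

/-- the support of the configuration -/
theorem qq_supp {z : ((((Ω × Fin n) × (Ω × Fin n)) × (Ω × Fin n)) ×
    (((Ω × Fin n) × (Ω × Fin n)) × (Ω × Fin n))) × ((Ω × Fin n) × (Ω × Fin n))}
    (hz : qq A D p z ≠ 0) :
    (z.1.1.1.2.1 = z.1.1.1.1.1 ∧ z.1.1.2.1 = z.1.1.1.1.1) ∧
    (z.1.2.1.2.1 = z.1.2.1.1.1 ∧ z.1.2.2.1 = z.1.2.1.1.1) ∧
    z.2.2.1 = z.2.1.1 ∧
    (z.1.2.1.1.2 = z.1.1.1.2.2 ∧
      cell A D z.1.1.1.2.2 z.1.1.1.1.1 = cell A D z.1.1.1.2.2 z.1.2.1.1.1) ∧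
    (z.2.1.2 = z.1.1.1.1.2 ∧
      cell A D z.1.1.1.1.2 z.1.1.1.1.1 = cell A D z.1.1.1.1.2 z.2.1.1) := by
  obtain ⟨h1, h2, h3⟩ := glue_supp hz
  obtain ⟨h4, h5, h6⟩ := glue_supp h2
  obtain ⟨a1, a2⟩ := r3_supp h5
  obtain ⟨b1, b2⟩ := r3_supp h6
  have h7 := (glue_supp h3).1
  have e1 : z.1.1.1.2.2 = z.1.2.1.1.2 := congrArg Prod.fst h4
  have e2 : cell A D z.1.1.1.2.2 z.1.1.1.2.1 = cell A D z.1.2.1.1.2 z.1.2.1.1.1 :=
    congrArg Prod.snd h4
  have e3 : z.1.1.1.1.2 = z.2.1.2 := congrArg Prod.fst h1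
  have e4 : cell A D z.1.1.1.1.2 z.1.1.1.1.1 = cell A D z.2.1.2 z.2.1.1 := congrArg Prod.snd h1
  refine ⟨⟨a1.symm, a2.symm⟩, ⟨b1.symm, b2.symm⟩, h7.symm, ⟨e1.symm, ?_⟩, ⟨e3.symm, ?_⟩⟩
  · rw [a1, e2, ← e1]
  · rw [e4, ← e3]


/-! ### marginals -/

theorem m_s0 (hp : IsLaw p) : im (qq A D p) (fun z => z.1.1.1.1) = p := by
  rw [im_im (qq A D p) (fun z => z.1.1) (fun z => z.1.1), qq_1 hp, r3_1 hp]

theorem m_t (hp : IsLaw p) : im (qq A D p) (fun z => z.1.1.2) = p := by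
  rw [im_im (qq A D p) (fun z => z.1.1) Prod.snd, qq_1 hp, r3_3 hp]

theorem m_t' (hp : IsLaw p) : im (qq A D p) (fun z => z.2.2) = p := by
  rw [im_im (qq A D p) Prod.snd Prod.snd, qq_snd hp, r2_snd hp]

theorem m_ta (hp : IsLaw p) : im (qq A D p) (fun z => z.1.2.1.2) = p := by
  rw [im_im (qq A D p) (fun z => z.1.2) (fun z => z.1.2), qq_2 hp, r3_2 hp]

theorem m_v (hp : IsLaw p) : im (qq A D p) (fun z => z.1.2.2) = p := by
  rw [im_im (qq A D p) (fun z => z.1.2) Prod.snd, qq_2 hp, r3_3 hp]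

theorem n_s0s1 (hp : IsLaw p) : im (qq A D p) (fun z => z.1.1.1) = r2 p := by
  rw [im_im (qq A D p) (fun z => z.1.1) Prod.fst, qq_1 hp, r3_12 hp]

theorem n_s0t (hp : IsLaw p) : im (qq A D p) (fun z => (z.1.1.1.1, z.1.1.2)) = r2 p := by
  rw [im_im (qq A D p) (fun z => z.1.1) (fun z => (z.1.1, z.2)), qq_1 hp, r3_13 hp]

theorem n_s1t (hp : IsLaw p) : im (qq A D p) (fun z => (z.1.1.1.2, z.1.1.2)) = r2 p := by
  rw [im_im (qq A D p) (fun z => z.1.1) (fun z => (z.1.2, z.2)), qq_1 hp, r3_23 hp]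

theorem n_s1ta (hp : IsLaw p) : im (qq A D p) (fun z => z.1.2.1) = r2 p := by
  rw [im_im (qq A D p) (fun z => z.1.2) Prod.fst, qq_2 hp, r3_12 hp]

theorem n_s1v (hp : IsLaw p) : im (qq A D p) (fun z => (z.1.2.1.1, z.1.2.2)) = r2 p := by
  rw [im_im (qq A D p) (fun z => z.1.2) (fun z => (z.1.1, z.2)), qq_2 hp, r3_13 hp]

theorem n_tav (hp : IsLaw p) : im (qq A D p) (fun z => (z.1.2.1.2, z.1.2.2)) = r2 p := by
  rw [im_im (qq A D p) (fun z => z.1.2) (fun z => (z.1.2, z.2)), qq_2 hp, r3_23 hp]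

theorem psi_comm (m i j : ℕ) : psi m i j = psi m j i := by
  unfold psi
  rw [abs_sub_comm]

theorem psum (hPSI : S_PSI) (hn : 1 ≤ n) (hp : IsLaw p)
    (φ : ((((Ω × Fin n) × (Ω × Fin n)) × (Ω × Fin n)) ×
      (((Ω × Fin n) × (Ω × Fin n)) × (Ω × Fin n))) × ((Ω × Fin n) × (Ω × Fin n)) →
      (Ω × Fin n) × (Ω × Fin n)) (hφ : im (qq A D p) φ = r2 p)
    (f g : ((((Ω × Fin n) × (Ω × Fin n)) × (Ω × Fin n)) ×
      (((Ω × Fin n) × (Ω × Fin n)) × (Ω × Fin n))) × ((Ω × Fin n) × (Ω × Fin n)) → Fin n)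
    (h : ∀ z, qq A D p z ≠ 0 → psi n (f z) (g z) = psi n (φ z).1.2 (φ z).2.2) :
    ∑ z, qq A D p z * psi n (f z) (g z) ≤ 2 * lam p + 4 := by
  have h1 := (hPSI Ω n p hn hp).2
  have h2 := sum_im_mul (qq A D p) φ (fun y => psi n y.1.2 y.2.2)
  rw [hφ] at h2
  have h3 : ∑ z, qq A D p z * psi n (f z) (g z) =
      ∑ z, qq A D p z * psi n (φ z).1.2 (φ z).2.2 := by
    refine Finset.sum_congr rfl fun z _ => ?_
    by_cases hz : qq A D p z = 0
    · rw [hz]; ring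
    · rw [h z hz]
  rw [h3, ← h2]
  exact h1

theorem H_pair (hp : IsLaw p) {α β : Type} {u : ((((Ω × Fin n) × (Ω × Fin n)) × (Ω × Fin n)) ×
      (((Ω × Fin n) × (Ω × Fin n)) × (Ω × Fin n))) → α} {v : (Ω × Fin n) × (Ω × Fin n) → β}
    (hu : Det (qA A D p) u (fun z => ce A D z.1.1.1)) (hv : Det (r2 p) v (fun z => ce A D z.1)) :
    H (qq A D p) (fun z => (u z.1, v z.2)) = H (qA A D p) u + H (r2 p) v - H p (ce A D) := by
  have h := H_glue (qA_law hp) (r2_law hp) (qq_ok (A := A) (D := D) hp) hu hv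
  have e : H (qA A D p) (fun z => ce A D z.1.1.1) = H p (ce A D) := by
    have := H_map (φ := fun z : (((Ω × Fin n) × (Ω × Fin n)) × (Ω × Fin n)) ×
      (((Ω × Fin n) × (Ω × Fin n)) × (Ω × Fin n)) => z.1.1.1) (p := qA A D p) (q := p)
      (by rw [im_im (qA A D p) Prod.fst (fun z => z.1.1), qA_fst hp, r3_1 hp]) (ce A D)
    exact this
  rw [e] at h
  exact h

theorem H_pairA (hp : IsLaw p) {α β : Type} {u : ((Ω × Fin n) × (Ω × Fin n)) × (Ω × Fin n) → α}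
    {w : ((Ω × Fin n) × (Ω × Fin n)) × (Ω × Fin n) → β}
    (hu : Det (r3 p) u (fun z => ce A D z.1.2)) (hv : Det (r3 p) w (fun z => ce A D z.1.1)) :
    H (qA A D p) (fun z => (u z.1, w z.2)) = H (r3 p) u + H (r3 p) w - H p (ce A D) := by
  have h := H_glue (r3_law hp) (r3_law hp) (qA_ok (A := A) (D := D) hp) hu hv
  have e : H (r3 p) (fun z => ce A D z.1.2) = H p (ce A D) := H_map (r3_2 hp) (ce A D)
  rw [e] at h
  exact h

theorem H_r2_fst (hp : IsLaw p) : H (r2 p) (fun z => z.1) = H p id := H_map (r2_fst hp) id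

theorem H_r3_fst (hp : IsLaw p) : H (r3 p) (fun z => z.1) = H (r2 p) (fun z => z) :=
  H_map (r3_12 hp) (fun z => z)

theorem H_r3_11 (hp : IsLaw p) : H (r3 p) (fun z => z.1.1) = H p id :=
  H_map (r3_1 hp) id

theorem Hlog (hp : IsLaw p) : H p Prod.snd ≤ Real.log n := by
  have h := H_le_log_card hp (Prod.snd : Ω × Fin n → Fin n) Finset.univ fun _ _ => mem_univ _
  rwa [Finset.card_univ, Fintype.card_fin] at h

theorem Hsub (hp : IsLaw p) : H p id ≤ H p Prod.fst + H p Prod.snd :=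
  subadd hp (Det.comp p (fun x : Ω × Fin n => (Prod.fst x, Prod.snd x)) fun x => x)


theorem H_line {q : ((((Ω × Fin n) × (Ω × Fin n)) × (Ω × Fin n)) ×
      (((Ω × Fin n) × (Ω × Fin n)) × (Ω × Fin n))) × ((Ω × Fin n) × (Ω × Fin n)) → ℝ}
    (hq : IsLaw q) {φ : ((((Ω × Fin n) × (Ω × Fin n)) × (Ω × Fin n)) ×
      (((Ω × Fin n) × (Ω × Fin n)) × (Ω × Fin n))) × ((Ω × Fin n) × (Ω × Fin n)) → Ω × Fin n}
    (hφ : im q φ = p) {f : ((((Ω × Fin n) × (Ω × Fin n)) × (Ω × Fin n)) ×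
      (((Ω × Fin n) × (Ω × Fin n)) × (Ω × Fin n))) × ((Ω × Fin n) × (Ω × Fin n)) → Fin n}
    {l : ((((Ω × Fin n) × (Ω × Fin n)) × (Ω × Fin n)) ×
      (((Ω × Fin n) × (Ω × Fin n)) × (Ω × Fin n))) × ((Ω × Fin n) × (Ω × Fin n)) → Ω}
    (h1 : ∀ z, q z ≠ 0 → (φ z).2 = f z) (h2 : ∀ z, q z ≠ 0 → (φ z).1 = l z) :
    H q (fun z => (f z, cell A D (f z) (l z))) - H q f = hh A D p := by
  have e1 : H q (fun z => (f z, cell A D (f z) (l z))) = H q (fun z => ce A D (φ z)) := by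
    refine H_ae hq fun z hz => ?_
    unfold ce
    rw [h1 z hz, h2 z hz]
  have e2 : H q f = H q (fun z => (φ z).2) := H_ae hq fun z hz => (h1 z hz).symm
  rw [e1, e2, H_map hφ (ce A D), H_map hφ Prod.snd]
  rfl

theorem CFG (hPSI : S_PSI) : S_CFG := by
  intro Ω _ d n A D p hn hp
  have hlam := (hPSI Ω n p hn hp).1
  have hlog := Hlog hp
  have hsub := Hsub hp
  have hpid : H p id = aa p + Real.log n - lam p := by
    unfold aa lam
    ring
  have hce : H p (ce A D) = hh A D p + H p Prod.snd := by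
    unfold hh
    have : H p (ce A D) = H p (fun z => (z.2, cell A D z.2 z.1)) := rfl
    rw [this]
    ring
  have haa : H p Prod.fst = aa p := rfl
  have hr2 := H_r2 hp
  have hr3 := H_r3 hp
  rw [haa] at hr2 hr3 hsub
  have hq : IsLaw (qq A D p) := qq_law hp
  refine ⟨((((Ω × Fin n) × (Ω × Fin n)) × (Ω × Fin n)) × (((Ω × Fin n) × (Ω × Fin n)) ×
    (Ω × Fin n))) × ((Ω × Fin n) × (Ω × Fin n)), inferInstance, qq A D p,
    fun z => z.1.1.1.1.1, fun z => z.1.2.1.1.1, fun z => z.2.1.1, fun z => z.1.1.1.1.2,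
    fun z => z.1.1.1.2.2, fun z => z.1.1.2.2, fun z => z.2.2.2, fun z => z.1.2.1.2.2,
    fun z => z.1.2.2.2, ?_⟩
  constructor
  · exact hq
  · intro z hz
    exact (qq_supp hz).2.2.2.2.2
  · intro z hz
    exact (qq_supp hz).2.2.2.1.2
  · exact H_line hq (m_t hp) (fun z _ => rfl) (fun z hz => (qq_supp hz).1.2)
  · exact H_line hq (m_t' hp) (fun z _ => rfl) (fun z hz => (qq_supp hz).2.2.1)
  · exact H_line hq (m_ta hp) (fun z _ => rfl) (fun z hz => (qq_supp hz).2.1.1)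
  · exact H_line hq (m_v hp) (fun z _ => rfl) (fun z hz => (qq_supp hz).2.1.2)
  · -- U3
    have h1 := H_pair (A := A) (D := D) hp (u := fun a => (a.1.1, a.2.1.1)) (v := fun y => y.1)
      (Det.comp (qA A D p) (fun a => (a.1.1, a.2.1.1)) fun b => ce A D b.1.1)
      (Det.comp (r2 p) (fun y => y.1) fun b => ce A D b)
    have h2 := H_pairA (A := A) (D := D) hp (u := fun a => a.1) (w := fun y => y.1.1)
      (Det.comp (r3 p) (fun a => a.1) fun b => ce A D b.2)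
      (Det.comp (r3 p) (fun y => y.1.1) fun b => ce A D b)
    rw [H_r3_fst hp, H_r3_11 hp] at h2
    rw [H_r2_fst hp] at h1
    have h3 := H_mono hq (Det.comp (qq A D p) (fun z => ((z.1.1.1, z.1.2.1.1), z.2.1))
      fun b => (b.1.1.1.1, b.1.2.1, b.2.1, b.1.1.1.2, b.1.1.2.2))
    refine h3.trans ?_
    rw [h1, h2]
    linarith
  · -- T3
    have h1 := H_pair (A := A) (D := D) hp (u := fun a => (a.1, a.2)) (v := fun y => y)
      (Det.comp (qA A D p) (fun a => (a.1, a.2)) fun b => ce A D b.1.1.1)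
      (Det.comp (r2 p) (fun y => y) fun b => ce A D b.1)
    have h2 := H_pairA (A := A) (D := D) hp (u := fun a => a) (w := fun y => y)
      (Det.comp (r3 p) (fun a => a) fun b => ce A D b.1.2)
      (Det.comp (r3 p) (fun y => y) fun b => ce A D b.1.1)
    have h3 : Det (qq A D p) (fun z => (z.1.1.1.1.1, z.1.2.1.1.1, z.2.1.1, z.1.1.1.1.2, z.1.1.1.2.2,
        z.1.2.2.2, z.1.1.2.2, z.1.2.1.2.2, z.2.2.2)) (fun z => ((z.1.1, z.1.2), z.2)) := by
      intro x y hx hy hxy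
      obtain ⟨⟨x1, x2⟩, ⟨x3, x4⟩, x5, ⟨x6, -⟩, ⟨x7, -⟩⟩ := qq_supp hx
      obtain ⟨⟨y1, y2⟩, ⟨y3, y4⟩, y5, ⟨y6, -⟩, ⟨y7, -⟩⟩ := qq_supp hy
      simp only [Prod.mk.injEq] at hxy
      obtain ⟨e1, e2, e3, e4, e5, e6, e7, e8, e9⟩ := hxy
      refine Prod.ext (Prod.ext (Prod.ext (Prod.ext (Prod.ext e1 e4) (Prod.ext ?_ e5))
        (Prod.ext ?_ e7)) (Prod.ext (Prod.ext (Prod.ext e2 ?_) (Prod.ext ?_ e8))
        (Prod.ext ?_ e6))) (Prod.ext (Prod.ext e3 ?_) (Prod.ext ?_ e9))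
      · exact x1.trans (e1.trans y1.symm)
      · exact x2.trans (e1.trans y2.symm)
      · exact x6.trans (e5.trans y6.symm)
      · exact x3.trans (e2.trans y3.symm)
      · exact x4.trans (e2.trans y4.symm)
      · exact x7.trans (e4.trans y7.symm)
      · exact x5.trans (e3.trans y5.symm)
    have h4 := H_mono hq h3
    refine le_trans ?_ h4
    rw [h1, h2]
    linarith
  · -- U2
    have h1 := H_pair (A := A) (D := D) hp (u := fun a => a.1.1.1) (v := fun y => y.1)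
      (Det.comp (qA A D p) (fun a => a.1.1.1) fun b => ce A D b)
      (Det.comp (r2 p) (fun y => y.1) fun b => ce A D b)
    have h2 : H (qA A D p) (fun a => a.1.1.1) = H p id := by
      rw [← H_r3_11 hp]
      exact H_map (qA_fst hp) (fun a => a.1.1)
    rw [H_r2_fst hp, h2] at h1
    have h3 := H_mono hq (Det.comp (qq A D p) (fun z => (z.1.1.1.1, z.2.1))
      fun b => (b.1.1, b.2.1, b.1.2))
    refine h3.trans ?_
    rw [h1]
    linarith
  · -- T2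
    have h1 := H_pair (A := A) (D := D) hp (u := fun a => a.1) (v := fun y => y)
      (Det.comp (qA A D p) (fun a => a.1) fun b => ce A D b.1.1)
      (Det.comp (r2 p) (fun y => y) fun b => ce A D b.1)
    have h2 : H (qA A D p) (fun a => a.1) = H (r3 p) (fun z => z) :=
      H_map (qA_fst hp) (fun a => a)
    have h3 : Det (qq A D p) (fun z => (z.1.1.1.1.1, z.2.1.1, z.1.1.1.1.2, z.1.1.1.2.2, z.1.1.2.2,
        z.2.2.2)) (fun z => (z.1.1, z.2)) := by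
      intro x y hx hy hxy
      obtain ⟨⟨x1, x2⟩, ⟨x3, x4⟩, x5, ⟨x6, -⟩, ⟨x7, -⟩⟩ := qq_supp hx
      obtain ⟨⟨y1, y2⟩, ⟨y3, y4⟩, y5, ⟨y6, -⟩, ⟨y7, -⟩⟩ := qq_supp hy
      simp only [Prod.mk.injEq] at hxy
      obtain ⟨e1, e2, e3, e4, e5, e6⟩ := hxy
      refine Prod.ext (Prod.ext (Prod.ext (Prod.ext e1 e3) (Prod.ext ?_ e4))
        (Prod.ext ?_ e5)) (Prod.ext (Prod.ext e2 ?_) (Prod.ext ?_ e6))
      · exact x1.trans (e1.trans y1.symm)
      · exact x2.trans (e1.trans y2.symm)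
      · exact x7.trans (e3.trans y7.symm)
      · exact x5.trans (e2.trans y5.symm)
    have h4 := H_mono hq h3
    refine le_trans ?_ h4
    rw [h1, h2]
    linarith
  · -- mar
    have h1 := H_pair (A := A) (D := D) hp (u := fun a => (a.1.1.1.2, a.1.1.2.2, a.2.2.2,
      cell A D a.1.1.1.2 a.1.1.1.1, cell A D a.2.2.2 a.2.1.1.1)) (v := fun y => y.1)
      (Det.comp (qA A D p) (fun a => (a.1.1.1.2, a.1.1.2.2, a.2.2.2,
      cell A D a.1.1.1.2 a.1.1.1.1, cell A D a.2.2.2 a.2.1.1.1)) fun b => (b.1, b.2.2.2.1))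
      (Det.comp (r2 p) (fun y => y.1) fun b => ce A D b)
    have h2 : H (qq A D p) (fun z => (z.1.1.1.1.2, z.1.1.1.2.2, z.1.2.2.2,
      cell A D z.1.1.1.1.2 z.1.1.1.1.1, cell A D z.1.2.2.2 z.1.2.1.1.1)) =
      H (qA A D p) (fun a => (a.1.1.1.2, a.1.1.2.2, a.2.2.2,
      cell A D a.1.1.1.2 a.1.1.1.1, cell A D a.2.2.2 a.2.1.1.1)) :=
      H_map (qq_fst hp) (fun a => (a.1.1.1.2, a.1.1.2.2, a.2.2.2,
      cell A D a.1.1.1.2 a.1.1.1.1, cell A D a.2.2.2 a.2.1.1.1))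
    rw [H_r2_fst hp] at h1
    have h3 : Det (qq A D p) (fun z => (z.1.1.1.1.2, z.1.1.1.2.2, z.1.2.2.2,
        cell A D z.1.2.2.2 z.1.2.1.1.1, z.2.1.1))
        (fun z => ((z.1.1.1.1.2, z.1.1.1.2.2, z.1.2.2.2,
          cell A D z.1.1.1.1.2 z.1.1.1.1.1, cell A D z.1.2.2.2 z.1.2.1.1.1), z.2.1)) := by
      intro x y hx hy hxy
      obtain ⟨⟨x1, x2⟩, ⟨x3, x4⟩, x5, ⟨x6, -⟩, ⟨x7, x8⟩⟩ := qq_supp hx
      obtain ⟨⟨y1, y2⟩, ⟨y3, y4⟩, y5, ⟨y6, -⟩, ⟨y7, y8⟩⟩ := qq_supp hy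
      simp only [Prod.mk.injEq] at hxy
      obtain ⟨e1, e2, e3, e4, e5⟩ := hxy
      refine Prod.ext (Prod.ext e1 (Prod.ext e2 (Prod.ext e3 (Prod.ext ?_ e4))))
        (Prod.ext e5 ?_)
      · show cell A D x.1.1.1.1.2 x.1.1.1.1.1 = cell A D y.1.1.1.1.2 y.1.1.1.1.1
        rw [x8, y8, e1, e5]
      · exact x7.trans (e1.trans y7.symm)
    have h4 := H_mono hq h3
    refine le_trans ?_ h4
    rw [h1, h2]
    linarith
  · -- pp
    set w := glue (r2 p) (r2 p) (fun z => ce A D z.1) (fun z => ce A D z.1) with hw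
    have hwl : IsLaw w := glue_law (r2_law hp) (r2_law hp) fun _ => rfl
    have hΦ : im (qq A D p) (fun z => ((z.1.1.1.2, z.1.1.1.1), (z.1.2.1.1, z.1.2.2))) = w := by
      rw [im_im (qq A D p) Prod.fst (fun a => ((a.1.1.2, a.1.1.1), (a.2.1.1, a.2.2))), qq_fst hp]
      have h := im_glue (r3 p) (r3 p) (fun x => (x.1.2, x.1.1)) (fun y => (y.1.1, y.2))
        (fun z : (Ω × Fin n) × (Ω × Fin n) => ce A D z.1)
        (fun z : (Ω × Fin n) × (Ω × Fin n) => ce A D z.1)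
      rw [r3_21 hp, r3_13 hp] at h
      exact h
    have hΨ : im (qq A D p) (fun z => ((z.1.1.1.1, z.1.1.2), z.2)) = w := by
      have h := im_glue (qA A D p) (r2 p) (fun a => (a.1.1.1, a.1.2)) (fun y => y)
        (fun z : (Ω × Fin n) × (Ω × Fin n) => ce A D z.1)
        (fun z : (Ω × Fin n) × (Ω × Fin n) => ce A D z.1)
      rw [im_im (qA A D p) Prod.fst (fun z => (z.1.1, z.2)), qA_fst hp, r3_13 hp, im_id] at h
      exact h
    have hs : ∀ y, w y ≠ 0 → y.1.1.1 = y.1.2.1 := by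
      intro y hy
      exact (glue_supp (glue_supp hy).2.1).1
    have l1 : H (qq A D p) (fun z => (z.1.1.1.1.2, z.1.1.1.2.2, z.1.2.2.2,
        cell A D z.1.1.1.1.2 z.1.1.1.1.1, cell A D z.1.2.2.2 z.1.2.1.1.1)) =
        H w (fun y => (y.1.2.2, y.1.1.2, y.2.2.2, cell A D y.1.2.2 y.1.2.1,
          cell A D y.2.2.2 y.2.1.1)) :=
      H_map hΦ (fun y => (y.1.2.2, y.1.1.2, y.2.2.2, cell A D y.1.2.2 y.1.2.1,
          cell A D y.2.2.2 y.2.1.1))
    have l2 : H (qq A D p) (fun z => (z.1.1.1.1.2, z.1.1.1.2.2, z.1.2.2.2)) =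
        H w (fun y => (y.1.2.2, y.1.1.2, y.2.2.2)) :=
      H_map hΦ (fun y => (y.1.2.2, y.1.1.2, y.2.2.2))
    have r1 : H (qq A D p) (fun z => (z.1.1.1.1.2, z.1.1.2.2, z.2.2.2,
        cell A D z.1.1.2.2 z.1.1.1.1.1, cell A D z.2.2.2 z.2.1.1)) =
        H w (fun y => (y.1.1.2, y.1.2.2, y.2.2.2, cell A D y.1.2.2 y.1.1.1,
          cell A D y.2.2.2 y.2.1.1)) :=
      H_map hΨ (fun y => (y.1.1.2, y.1.2.2, y.2.2.2, cell A D y.1.2.2 y.1.1.1,
          cell A D y.2.2.2 y.2.1.1))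
    have r2' : H (qq A D p) (fun z => (z.1.1.1.1.2, z.1.1.2.2, z.2.2.2)) =
        H w (fun y => (y.1.1.2, y.1.2.2, y.2.2.2)) :=
      H_map hΨ (fun y => (y.1.1.2, y.1.2.2, y.2.2.2))
    have c1 : H w (fun y => (y.1.2.2, y.1.1.2, y.2.2.2, cell A D y.1.2.2 y.1.2.1,
          cell A D y.2.2.2 y.2.1.1)) = H w (fun y => (y.1.1.2, y.1.2.2, y.2.2.2,
            cell A D y.1.2.2 y.1.1.1, cell A D y.2.2.2 y.2.1.1)) := by
      refine H_congr hwl ?_ ?_
      · intro x y hx hy hxy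
        simp only [Prod.mk.injEq] at hxy ⊢
        obtain ⟨e1, e2, e3, e4, e5⟩ := hxy
        refine ⟨e2, e1, e3, ?_, e5⟩
        rw [hs x hx, hs y hy, e4]
      · intro x y hx hy hxy
        simp only [Prod.mk.injEq] at hxy ⊢
        obtain ⟨e1, e2, e3, e4, e5⟩ := hxy
        refine ⟨e2, e1, e3, ?_, e5⟩
        rw [← hs x hx, ← hs y hy, e4]
    have c2 : H w (fun y => (y.1.2.2, y.1.1.2, y.2.2.2)) =
        H w (fun y => (y.1.1.2, y.1.2.2, y.2.2.2)) := by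
      refine H_congr hwl ?_ ?_
      · intro x y hx hy hxy
        simp only [Prod.mk.injEq] at hxy ⊢
        exact ⟨hxy.2.1, hxy.1, hxy.2.2⟩
      · intro x y hx hy hxy
        simp only [Prod.mk.injEq] at hxy ⊢
        exact ⟨hxy.2.1, hxy.1, hxy.2.2⟩
    rw [l1, l2, r1, r2', c1, c2]
  · -- c1
    exact psum hPSI hn hp _ (n_s0s1 hp) _ _ fun z _ => rfl
  · exact psum hPSI hn hp _ (n_s0t hp) _ _ fun z _ => psi_comm _ _ _
  · exact psum hPSI hn hp _ (n_s1t hp) _ _ fun z _ => psi_comm _ _ _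
  · refine psum hPSI hn hp _ (qq_snd hp) _ _ fun z hz => ?_
    rw [psi_comm, (qq_supp hz).2.2.2.2.1]
  · refine psum hPSI hn hp _ (n_s1ta hp) _ _ fun z hz => ?_
    rw [psi_comm, (qq_supp hz).2.2.2.1.1]
  · exact psum hPSI hn hp _ (n_tav hp) _ _ fun z _ => rfl
  · refine psum hPSI hn hp _ (n_s1v hp) _ _ fun z hz => ?_
    rw [psi_comm]
    show _ = psi n z.1.2.1.1.2 z.1.2.2.2
    rw [(qq_supp hz).2.2.2.1.1]

end main

end Pool.Agent.W597.HD
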