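import Pool.Agent.W229.HD.Stm

/-! # HD-DEC: algebra of the decimation -/

set_option autoImplicit false

namespace Pool.Agent.W597.HDD
open Pool.Agent.W229.HD

theorem dt_zero (v : E3) : dt v 0 = 0 := by simp [dt]

theorem dt_add (v w u : E3) : dt v (w + u) = dt v w + dt v u := by
  simp [dt, mul_add, Finset.sum_add_distrib]

theorem cj_zero : cj 0 = 0 := by
  unfold cj
  ext i
  simp

theorem cj_add (v w : E3) : cj (v + w) = cj v + cj w := by
  unfold cj
  ext i
  simp

theorem hel_zero (hHEL : S_HEL) (s : Bool) {k : K3} (hk : k ≠ 0) : hel s k 0 = 0 := by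
  have h := (hHEL s k hk 0 0 0).2.1
  rwa [zero_smul, zero_smul] at h

theorem hel_zero' (s : Bool) : hel s 0 0 = 0 := by
  have h1 : kc 0 = 0 := by
    unfold kc
    ext i
    simp
  have h2 : cr (kc 0) 0 = 0 := by
    unfold cr
    ext i
    fin_cases i <;> simp
  unfold hel
  rw [h2, h1, dt_zero]
  simp

open Classical in
theorem dec_eq (Λ : Bool → Set K3) (k : K3) (v : E3) : dec Λ k v =
    (if k ∈ Λ true then hel true k v else 0) + (if k ∈ Λ false then hel false k v else 0) := by
  unfold Pool.Agent.W229.HD.dec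
  rw [Fintype.sum_bool]

theorem decS (hHEL : S_HEL) : S_DEC := by
  classical
  intro Λ hΛ k v w c s
  by_cases hk : k = 0
  · subst hk
    have h0 : ∀ u : E3, dec Λ 0 u = 0 := by
      intro u
      rw [dec_eq, if_neg (hΛ.zero true), if_neg (hΛ.zero false), add_zero]
    refine ⟨?_, ?_, ?_, ?_, ?_, ?_, ?_, ?_, ?_⟩
    · rw [h0, h0, h0, add_zero]
    · rw [h0, h0, smul_zero]
    · rw [h0, dt_zero]
    · rw [h0, h0]
    · rw [neg_zero, h0, h0, cj_zero]
    · rw [h0, h0, inner_zero_left, inner_zero_right]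
    · rw [h0, norm_zero]
      exact norm_nonneg v
    · intro _ _
      exact h0 v
    · intro _
      rw [h0, hel_zero']
  · have hadd : ∀ s v w, hel s k (v + w) = hel s k v + hel s k w := fun s v w =>
      (hHEL s k hk v w 0).1
    have hsm : ∀ s (c : ℂ) v, hel s k (c • v) = c • hel s k v := fun s c v =>
      (hHEL s k hk v 0 c).2.1
    have hdt : ∀ s v, dt (kc k) (hel s k v) = 0 := fun s v => (hHEL s k hk v 0 0).2.2.1
    have hid : ∀ s v, hel s k (hel s k v) = hel s k v := fun s v =>
      (hHEL s k hk v 0 0).2.2.2.2.1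
    have hcr1 : ∀ v, hel false k (hel true k v) = 0 := fun v =>
      (hHEL true k hk v 0 0).2.2.2.2.2.1
    have hcr2 : ∀ v, hel true k (hel false k v) = 0 := fun v =>
      (hHEL false k hk v 0 0).2.2.2.2.2.1
    have hcj : ∀ s v, hel s (-k) (cj v) = cj (hel s k v) := fun s v =>
      (hHEL s k hk v 0 0).2.2.2.2.2.2.2.1
    have hin : ∀ s v w, inner ℂ (hel s k v) w = inner ℂ v (hel s k w) := fun s v w =>
      (hHEL s k hk v w 0).2.2.2.2.2.2.2.2.1
    have hno : ‖hel true k v‖ ^ 2 + ‖hel false k v‖ ^ 2 ≤ ‖v‖ ^ 2 :=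
      (hHEL true k hk v 0 0).2.2.2.2.2.2.2.2.2
    have hz : ∀ s, hel s k 0 = 0 := fun s => hel_zero hHEL s hk
    have hneg : ∀ s, -k ∈ Λ s ↔ k ∈ Λ s := fun s =>
      ⟨fun h => by simpa using hΛ.neg s _ h, fun h => hΛ.neg s _ h⟩
    refine ⟨?_, ?_, ?_, ?_, ?_, ?_, ?_, ?_, ?_⟩
    · rw [dec_eq, dec_eq, dec_eq, hadd, hadd]
      split_ifs
      · abel
      · abel
      · abel
      · abel
    · simp only [dec_eq, hsm]
      split_ifs
      · rw [smul_add]
      · rw [smul_add, smul_zero]
      · rw [smul_add, smul_zero]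
      · rw [smul_add, smul_zero]
    · rw [dec_eq, dt_add]
      split_ifs
      · rw [hdt, hdt, add_zero]
      · rw [hdt, dt_zero, add_zero]
      · rw [hdt, dt_zero, add_zero]
      · rw [dt_zero, add_zero]
    · rw [dec_eq, dec_eq]
      split_ifs
      · rw [hadd, hadd, hid, hid, hcr1, hcr2, add_zero, zero_add]
      · rw [add_zero, add_zero, hid]
      · rw [zero_add, zero_add, hid]
      · rw [add_zero]
    · rw [dec_eq, dec_eq, cj_add, hcj, hcj]
      simp only [hneg]
      split_ifs
      · rfl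
      · rw [cj_zero]
      · rw [cj_zero]
      · rw [cj_zero]
    · rw [dec_eq, dec_eq, inner_add_left, inner_add_right]
      split_ifs
      · rw [hin, hin]
      · rw [hin, inner_zero_left, inner_zero_right]
      · rw [hin, inner_zero_left, inner_zero_right]
      · rw [inner_zero_left, inner_zero_right]
    · have hsq : ‖dec Λ k v‖ ^ 2 ≤ ‖v‖ ^ 2 := by
        rw [dec_eq]
        split_ifs
        · rw [@norm_add_sq ℂ, hin, hcr2, inner_zero_right]
          simpa using hno
        · rw [add_zero]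
          nlinarith [sq_nonneg ‖hel false k v‖]
        · rw [zero_add]
          nlinarith [sq_nonneg ‖hel true k v‖]
        · rw [add_zero, norm_zero]
          nlinarith [sq_nonneg ‖v‖]
      exact le_of_sq_le_sq hsq (norm_nonneg v)
    · intro h1 h2
      rw [dec_eq, if_neg h1, if_neg h2, add_zero]
    · intro h1
      rw [dec_eq]
      cases s
      · rw [if_neg h1, add_zero]
        split_ifs
        · rw [hcr1]
        · rw [hz]
      · rw [if_neg h1, zero_add]
        split_ifs
        · rw [hcr2]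
        · rw [hz]

end Pool.Agent.W597.HDD
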